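import Pool.Agent.H37.CNL.Stmts

/-!
# Row VVB: the powers of `α` span the fixed field of `M` over the fixed field of `G` (after H17/CNK/DVB)
-/

set_option autoImplicit false

namespace Pool.CND

open Finset

/-- the degree over the fixed field -/
theorem VVBaux.finrank {k L G : Type} [Field k] [Field L] [Algebra k L] [Group G] [Finite G]
    (ρ : G →* (L ≃ₐ[k] L)) (hinj : Function.Injective ρ) :
    ∃ K : IntermediateField k L, (∀ z : L, z ∈ K ↔ ∀ g : G, ρ g z = z) ∧
      FiniteDimensional K L ∧ Module.finrank K L = Nat.card G := by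
  let H : Subgroup (L ≃ₐ[k] L) := ρ.range
  have hHf : Finite H := by
    have h2 : (Set.range ρ).Finite := Set.finite_range ρ
    have h3 : (H : Set (L ≃ₐ[k] L)) = Set.range ρ := MonoidHom.coe_range ρ
    have : (H : Set (L ≃ₐ[k] L)).Finite := by rw [h3]; exact h2
    exact this.to_subtype
  have hHcard : Nat.card H = Nat.card G :=
    (Nat.card_congr (MonoidHom.ofInjective hinj).toEquiv).symm
  have hfin : FiniteDimensional (IntermediateField.fixedField H) L :=
    (inferInstance : FiniteDimensional (FixedPoints.subfield H L) L)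
  have hFcard : Module.finrank (IntermediateField.fixedField H) L = Nat.card G := by
    have := Fintype.ofFinite H
    rw [← hHcard, Nat.card_eq_fintype_card]
    exact FixedPoints.finrank_eq_card H L
  refine ⟨IntermediateField.fixedField H, ?_, hfin, hFcard⟩
  intro z
  rw [IntermediateField.mem_fixedField_iff]
  constructor
  · intro h4 g
    exact h4 (ρ g) ⟨g, rfl⟩
  · rintro h4 f ⟨g, rfl⟩
    exact h4 g

theorem vvb_thm (hVAS : S_VAS) (hTOT : S_TOT) (hVEC : S_VEC) : S_VVB := by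
  classical
  intro p k L G _ _ _ _ _ _ ρ t P Δ M α hcv _ hα0 hαM hαo x hx
  obtain ⟨_, hfx, _, _, hinj⟩ := hVAS p k L G ρ t P Δ hcv
  obtain ⟨K, hK, hfd, hfr⟩ := VVBaux.finrank ρ hinj
  -- orders
  have hKfix : ∀ c ∈ K, ∀ g : G, ρ g c = c := by
    intro c hc
    exact (hK c).1 hc
  have hKord : ∀ c ∈ K, c ≠ 0 → (Nat.card G : ℤ) ∣ P.ord c := by
    intro c hc hc0
    have h := hTOT k L G P ρ ⊤ hinj (fun n _ => hfx n) c hc0 (fun n _ => hKfix c hc n)
    rwa [Subgroup.card_top] at h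
  have hMord : ∀ c : L, (∀ m ∈ M, ρ m c = c) → c ≠ 0 → (Nat.card M : ℤ) ∣ P.ord c := by
    intro c hc hc0
    exact hTOT k L G P ρ M hinj (fun n _ => hfx n) c hc0 hc
  obtain ⟨e, he⟩ : ∃ e, e = M.index := ⟨_, rfl⟩
  obtain ⟨n, hn⟩ : ∃ n, n = Nat.card M := ⟨_, rfl⟩
  have hen : e * n = Nat.card G := by rw [he, hn]; exact M.index_mul_card
  have hGpos : 0 < Nat.card G := Nat.card_pos
  have hnpos : 0 < n := by rw [hn]; exact Nat.card_pos
  have hepos : 0 < e := by
    rcases Nat.eq_zero_or_pos e with h | h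
    · rw [h, zero_mul] at hen; omega
    · exact h
  rw [← hn] at hαo hMord
  -- the family
  let v : Fin e × Fin n → L := fun ij => α ^ (ij.1 : ℕ) * P.pi ^ (ij.2 : ℕ)
  have hv0 : ∀ ij, v ij ≠ 0 := fun ij =>
    mul_ne_zero (pow_ne_zero _ hα0) (pow_ne_zero _ P.pi_ne)
  have hvo : ∀ ij, P.ord (v ij) = ((n * (ij.1 : ℕ) + (ij.2 : ℕ) : ℕ) : ℤ) := by
    intro ij
    show P.ord (α ^ (ij.1 : ℕ) * P.pi ^ (ij.2 : ℕ)) = _
    rw [P.ord_mul _ _ (pow_ne_zero _ hα0) (pow_ne_zero _ P.pi_ne), P.ord_pow hα0,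
      P.ord_pow P.pi_ne, hαo, P.ord_pi]
    push_cast
    ring
  have hlt : ∀ ij : Fin e × Fin n, n * (ij.1 : ℕ) + (ij.2 : ℕ) < Nat.card G := by
    intro ij
    have h1 : (ij.1 : ℕ) + 1 ≤ e := ij.1.2
    have h2 := ij.2.2
    calc n * (ij.1 : ℕ) + (ij.2 : ℕ) < n * (ij.1 : ℕ) + n := by omega
      _ = ((ij.1 : ℕ) + 1) * n := by ring
      _ ≤ e * n := Nat.mul_le_mul_right n h1
      _ = _ := hen
  have hvdis : ∀ a b, a ≠ b → ¬ ((Nat.card G : ℕ) : ℤ) ∣ P.ord (v a) - P.ord (v b) := by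
    intro a b hab hdvd
    rw [hvo, hvo] at hdvd
    have h1 := hlt a
    have h2 := hlt b
    have h3 : (n * (a.1 : ℕ) + (a.2 : ℕ) : ℕ) = n * (b.1 : ℕ) + (b.2 : ℕ) := by
      have h4 := Int.eq_zero_of_abs_lt_dvd hdvd (by
        rw [abs_lt]
        constructor <;> omega)
      omega
    apply hab
    have h5 : (a.2 : ℕ) = b.2 := by
      have h6 := congrArg (fun z => z % n) h3
      simp only [Nat.mul_add_mod] at h6
      rwa [Nat.mod_eq_of_lt a.2.2, Nat.mod_eq_of_lt b.2.2] at h6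
    have h7 : (a.1 : ℕ) = b.1 := by
      rw [h5] at h3
      exact Nat.eq_of_mul_eq_mul_left hnpos (Nat.add_right_cancel h3)
    exact Prod.ext (Fin.ext h7) (Fin.ext h5)
  have hli : LinearIndependent K v := by
    rw [Fintype.linearIndependent_iff]
    intro g hg
    by_contra hcon
    push Not at hcon
    obtain ⟨i, hi⟩ := hcon
    refine (hVEC k L (Fin e × Fin n) P (Nat.card G) v (fun i => ((g i : K) : L)) hGpos hv0 hvdis
      ?_ ?_).1 ?_
    · intro j
      by_cases h0 : ((g j : K) : L) = 0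
      · exact Or.inl h0
      · exact Or.inr (hKord _ (g j).2 h0)
    · refine ⟨i, fun h0 => hi ?_⟩
      exact Subtype.ext h0
    · exact hg
  have hne : Nonempty (Fin e × Fin n) := ⟨(⟨0, hepos⟩, ⟨0, hnpos⟩)⟩
  have hspan := hli.span_eq_top_of_card_eq_finrank (by
    rw [Fintype.card_prod, Fintype.card_fin, Fintype.card_fin, hfr, hen])
  obtain ⟨c, hc⟩ := (Submodule.mem_span_range_iff_exists_fun K).1
    (show x ∈ Submodule.span K (Set.range v) by rw [hspan]; trivial)
  have hc' : ∑ j : Fin n, (∑ i : Fin e, ((c (i, j) : K) : L) * α ^ (i : ℕ)) * P.pi ^ (j : ℕ) = x := by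
    rw [← hc, Fintype.sum_prod_type, sum_comm]
    refine sum_congr rfl fun j _ => ?_
    rw [sum_mul]
    refine sum_congr rfl fun i _ => ?_
    show ((c (i, j) : K) : L) * α ^ (i : ℕ) * P.pi ^ (j : ℕ) =
      ((c (i, j) : K) : L) * (α ^ (i : ℕ) * P.pi ^ (j : ℕ))
    ring
  have hdM : ∀ j : Fin n, ∀ m ∈ M,
      ρ m (∑ i : Fin e, ((c (i, j) : K) : L) * α ^ (i : ℕ)) =
        ∑ i : Fin e, ((c (i, j) : K) : L) * α ^ (i : ℕ) := by
    intro j m hm
    rw [map_sum]
    refine sum_congr rfl fun i _ => ?_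
    rw [map_mul, map_pow, hαM m hm, hKfix _ (c (i, j)).2 m]
  -- comparison of coefficients of the powers of `π`
  have hzero : ∀ j : Fin n, (∑ i : Fin e, ((c (i, j) : K) : L) * α ^ (i : ℕ)) -
      (if (j : ℕ) = 0 then x else 0) = 0 := by
    by_contra hcon
    push Not at hcon
    obtain ⟨j0, hj0⟩ := hcon
    refine (hVEC k L (Fin n) P n (fun j => P.pi ^ (j : ℕ))
      (fun j => (∑ i : Fin e, ((c (i, j) : K) : L) * α ^ (i : ℕ)) -
        (if (j : ℕ) = 0 then x else 0)) hnpos (fun j => pow_ne_zero _ P.pi_ne) ?_ ?_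
      ⟨j0, hj0⟩).1 ?_
    · intro i j hij hdvd
      rw [P.ord_pow P.pi_ne, P.ord_pow P.pi_ne, P.ord_pi, mul_one, mul_one] at hdvd
      have h1 := i.2
      have h2 := j.2
      have h4 := Int.eq_zero_of_abs_lt_dvd hdvd (by
        rw [abs_lt]
        constructor <;> omega)
      exact hij (Fin.ext (by omega))
    · intro j
      by_cases h0 : (∑ i : Fin e, ((c (i, j) : K) : L) * α ^ (i : ℕ)) -
        (if (j : ℕ) = 0 then x else 0) = 0
      · exact Or.inl h0
      · refine Or.inr ?_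
        refine hMord _ (fun m hm => ?_) h0
        rw [map_sub, hdM j m hm]
        by_cases hj : (j : ℕ) = 0
        · rw [if_pos hj, hx m hm]
        · rw [if_neg hj, map_zero]
    · simp only [sub_mul]
      rw [sum_sub_distrib, hc', Finset.sum_eq_single (⟨0, hnpos⟩ : Fin n)]
      · simp
      · intro j _ hj
        rw [if_neg, zero_mul]
        intro h
        exact hj (Fin.ext h)
      · intro h
        exact absurd (mem_univ _) h
  refine ⟨fun i => if h : i < e then ((c (⟨i, h⟩, ⟨0, hnpos⟩) : K) : L) else 0, ?_, ?_⟩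
  · intro i g
    dsimp only
    split_ifs with h
    · exact hKfix _ (c _).2 g
    · exact map_zero _
  · have h1 := hzero ⟨0, hnpos⟩
    rw [if_pos rfl, sub_eq_zero] at h1
    rw [← h1, ← he, Finset.sum_range]
    refine sum_congr rfl fun i _ => ?_
    dsimp only
    rw [dif_pos i.2]

end Pool.CND
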